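import Pool.Agent.Helper3.WA.Defs
import Pool.Agent.Helper48.ET.Code

/-! Project WA, piece WA-10: existence and uniqueness of the `z`-part. -/

set_option autoImplicit false

namespace Pool.Agent.Helper88.WA

open Finset
open Pool.Agent.Helper48.ET
open Pool.Agent.Helper3.WA

variable {p : ℕ} [Fact p.Prime]

theorem pow_mm_le {C : ℕ} (hC : 0 < C) (n i : ℕ) : C ^ i * mm C (2 * n + 1) i ≤ n := by
  have h1 := pow_mul_mm_anti hC (2 * n + 1) (Nat.zero_le i)
  have h2 := mm_base (C := C) (b := 0) (N := n) hC (by simp)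
  simp only [pow_zero, one_mul, mul_one] at h1 h2
  rw [h2] at h1
  exact h1

/-- the relations for the parameter `2 n + 1` only see the digits below `n` -/
theorem blockRel_congr {C : ℕ} (hC : 0 < C) {n i : ℕ} {θ : Par p} {x z x' z' : ℕ → ZMod p}
    (hx : ∀ u, u < n → x u = x' u) (hz : ∀ u, u < n → z u = z' u)
    (h : BlockRel C (2 * n + 1) θ x z i) : BlockRel C (2 * n + 1) θ x' z' i := by
  have hle := pow_mm_le hC n i
  have hcell : ∀ {y y' : ℕ → ZMod p}, (∀ u, u < n → y u = y' u) → ∀ u,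
      u < mm C (2 * n + 1) i → cell p C y i u = cell p C y' i u := by
    intro y y' hy u hu
    refine cell_congr hC fun v _ hv => hy v ?_
    have h1 : (u + 1) * C ^ i ≤ C ^ i * mm C (2 * n + 1) i := by
      rw [mul_comm]
      exact Nat.mul_le_mul_left _ hu
    omega
  have hcc : ∀ s ∈ range (cc C (2 * n + 1) i),
      C * mm C (2 * n + 1) (i + 1) + s < mm C (2 * n + 1) i := by
    intro s hs
    have h1 := mem_range.mp hs
    unfold cc at h1
    omega
  have htw : ∀ s, tw C (2 * n + 1) θ x' i s = tw C (2 * n + 1) θ x i s := by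
    intro s
    unfold tw
    split_ifs with h1
    · refine sum_congr rfl fun u hu => ?_
      rw [hcell hx u (lt_of_lt_of_le (mem_range.mp hu) (mul_mm_le hC (2 * n + 1) i))]
    · rfl
  unfold BlockRel at h ⊢
  have e1 : ∑ s ∈ range (cc C (2 * n + 1) i),
      (cell p C z' i (C * mm C (2 * n + 1) (i + 1) + s) - tw C (2 * n + 1) θ x' i s) *
        eb p (C ^ i) (cc C (2 * n + 1) i) s =
      ∑ s ∈ range (cc C (2 * n + 1) i),
      (cell p C z i (C * mm C (2 * n + 1) (i + 1) + s) - tw C (2 * n + 1) θ x i s) *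
        eb p (C ^ i) (cc C (2 * n + 1) i) s :=
    sum_congr rfl fun s hs => by rw [htw, hcell hz _ (hcc s hs)]
  have e2 : ∑ s ∈ range (cc C (2 * n + 1) i),
      cell p C x' i (C * mm C (2 * n + 1) (i + 1) + s) * eb p (C ^ i) (cc C (2 * n + 1) i) s =
      ∑ s ∈ range (cc C (2 * n + 1) i),
      cell p C x i (C * mm C (2 * n + 1) (i + 1) + s) * eb p (C ^ i) (cc C (2 * n + 1) i) s :=
    sum_congr rfl fun s hs => by rw [hcell hx _ (hcc s hs)]
  rw [e1, e2]
  exact h

theorem isCode_trunc {C : ℕ} (hC : 0 < C) {n : ℕ} {θ : Par p} {x z : ℕ → ZMod p}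
    (h : ∀ i, BlockRel C (2 * n + 1) θ x z i) : IsCode C 0 n θ (trunc n x) (trunc n z) := by
  refine ⟨fun u hu => ?_, fun u hu => ?_, fun i _ => ?_⟩
  · simp [trunc, not_lt.mpr hu]
  · simp [trunc, not_lt.mpr hu]
  · rw [pow_zero]
    exact blockRel_congr hC (fun u hu => by simp [trunc, hu]) (fun u hu => by simp [trunc, hu])
      (h i)

theorem z_unique {C : ℕ} (hC : 2 ≤ C) {n : ℕ} {θ : Par p} {x z z' : ℕ → ZMod p}
    (h : ∀ i, BlockRel C (2 * n + 1) θ x z i) (h' : ∀ i, BlockRel C (2 * n + 1) θ x z' i) :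
    ∀ u, u < n → z u = z' u := by
  intro u hu
  have hC0 : 0 < C := by omega
  have h1 := code_unique hC (b := 0) (N := n) (by simp) θ (isCode_trunc hC0 h)
    (isCode_trunc hC0 h')
  have h2 := congrFun h1 u
  simpa [trunc, hu] using h2

/-- WA-10 (existence and uniqueness of the `z`-part, from `code_exists`, `code_unique`) -/
theorem lw_exists {C : ℕ} (hC : 2 ≤ C) (n : ℕ) (θ : Par p) (x : ℕ → ZMod p)
    (hx : ∀ u, n < u → x u = 0) : ∃ z, LW C n θ x z := by
  have hC0 : 0 < C := by omega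
  obtain ⟨z, hz⟩ := code_exists hC (b := 0) (N := n) (by simp) θ (trunc n x) (fun u hu => by
    simp [trunc, not_lt.mpr hu])
  refine ⟨fun u => if u < n then z u else if u = n then
    θ.lam * x n ^ 2 + ∑ v ∈ range n, θ.tau 0 2 v * x v else 0, hx, fun u hu => ?_, fun i => ?_, ?_⟩
  · have h1 : ¬ u < n := by omega
    have h2 : ¬ u = n := by omega
    simp [h1, h2]
  · have h1 := hz.rel i (Nat.zero_le i)
    rw [pow_zero] at h1
    exact blockRel_congr hC0 (fun u hu => by simp [trunc, hu]) (fun u hu => by simp [hu]) h1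
  · simp

/-- WA-10 -/
theorem lw_unique {C : ℕ} (hC : 2 ≤ C) {n : ℕ} {θ : Par p} {x z z' : ℕ → ZMod p}
    (h : LW C n θ x z) (h' : LW C n θ x z') : z = z' := by
  funext u
  rcases lt_trichotomy u n with hu | hu | hu
  · exact z_unique hC h.rel h'.rel u hu
  · rw [hu, h.top, h'.top]
  · rw [h.zs u hu, h'.zs u hu]

/-- WA-10: the `z`-digits `≤ n` of a `PW` word are determined by `x` -/
theorem pw_unique {C : ℕ} (hC : 2 ≤ C) {n : ℕ} {θ : Par p} {x z z' : ℕ → ZMod p}
    (h : PW C n θ x z) (h' : PW C n θ x z') : ∀ u, u ≤ n → z u = z' u := by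
  intro u hu
  rcases lt_or_eq_of_le hu with hu | hu
  · exact z_unique hC h.rel h'.rel u hu
  · rw [hu, h.top, h'.top]

end Pool.Agent.Helper88.WA
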